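import Pool.Agent.SZG.StmtsD2
import Pool.Agent.Helper91_SZG.MNG

/-!
# SZG row MNP: a matrix of small length in groups of rows, only the products bounded (helper40;
after `Helper91_SZG/MNG.lean`)
-/

set_option autoImplicit false

namespace Pool.Agent.SZG.H40

open scoped BigOperators
open Pool.Agent.SZG.H91 (v_sign card_right)

theorem det_block_w {K : Type} [Field K] (v : AbsoluteValue K ℝ) {α ι : Type} [Fintype α]
    [Fintype ι] [DecidableEq α] [DecidableEq ι]
    (Z : Matrix (α ⊕ ι) (α ⊕ ι) K) (β : α → ℝ) (ω χ : ι → ℝ) (ε : ℝ) (hv : IsNonarchimedean v)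
    (h0 : 0 ≤ ε) (h1 : ε ≤ 1) (hβ : ∀ a, 0 < β a) (hω : ∀ i, 0 ≤ ω i) (hχ : ∀ j, 0 ≤ χ j)
    (h11 : ∀ a b, v (Z (Sum.inl a) (Sum.inl b)) ≤ β a * (β b)⁻¹)
    (h12 : ∀ a j, v (Z (Sum.inl a) (Sum.inr j)) ≤ β a * χ j)
    (h21 : ∀ i b, v (Z (Sum.inr i) (Sum.inl b)) ≤ ω i * (β b)⁻¹)
    (h22 : ∀ i j, v (Z (Sum.inr i) (Sum.inr j)) ≤ ε * (ω i * χ j)) :
    v Z.det ≤ ε ^ (Fintype.card ι - Fintype.card α) * ((∏ i, ω i) * ∏ j, χ j) := by
  classical
  have hW : 0 ≤ (∏ i, ω i) * ∏ j, χ j :=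
    mul_nonneg (Finset.prod_nonneg fun i _ => hω i) (Finset.prod_nonneg fun j _ => hχ j)
  rw [Matrix.det_apply']
  refine (hv.apply_sum_le (s := Finset.univ)).trans (Real.iSup_le ?_ (by positivity))
  rintro ⟨σ, -⟩
  rw [map_mul, v_sign, one_mul, map_prod]
  -- weights
  obtain ⟨W, hWdef⟩ : ∃ W : α ⊕ ι → ℝ, W = Sum.elim β ω := ⟨_, rfl⟩
  obtain ⟨X, hXdef⟩ : ∃ X : α ⊕ ι → ℝ, X = Sum.elim (fun a => (β a)⁻¹) χ := ⟨_, rfl⟩
  have hent : ∀ x y, v (Z x y) ≤
      (if x.isRight = true ∧ y.isRight = true then ε else 1) * (W x * X y) := by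
    rintro (a | i) (b | j)
    · rw [if_neg (by simp), hWdef, hXdef]
      simpa using h11 a b
    · rw [if_neg (by simp), hWdef, hXdef]
      simpa using h12 a j
    · rw [if_neg (by simp), hWdef, hXdef]
      simpa using h21 i b
    · rw [if_pos (by simp), hWdef, hXdef]
      simpa using h22 i j
  have e1 : ∏ y, v (Z (σ y) y) ≤
      ∏ y, ((if (σ y).isRight = true ∧ y.isRight = true then ε else 1) * (W (σ y) * X y)) :=
    Finset.prod_le_prod (fun _ _ => v.nonneg _) fun y _ => hent _ _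
  refine e1.trans ?_
  rw [Finset.prod_mul_distrib, Finset.prod_mul_distrib, Equiv.prod_comp σ W]
  have e23 : (∏ x, W x) * ∏ x, X x = (∏ i, ω i) * ∏ j, χ j := by
    rw [Fintype.prod_sum_type, Fintype.prod_sum_type, hWdef, hXdef]
    simp only [Sum.elim_inl, Sum.elim_inr]
    have hb : (∏ a, β a) * ∏ a, (β a)⁻¹ = 1 := by
      rw [← Finset.prod_mul_distrib]
      exact Finset.prod_eq_one fun a _ => mul_inv_cancel₀ (hβ a).ne'
    calc ((∏ a, β a) * ∏ i, ω i) * ((∏ a, (β a)⁻¹) * ∏ j, χ j)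
        = ((∏ a, β a) * ∏ a, (β a)⁻¹) * ((∏ i, ω i) * ∏ j, χ j) := by ring
      _ = (∏ i, ω i) * ∏ j, χ j := by rw [hb, one_mul]
  rw [e23]
  refine mul_le_mul_of_nonneg_right ?_ hW
  rw [Fintype.prod_sum_type]
  have e4 : ∏ a : α, (if (σ (Sum.inl a)).isRight = true ∧ (Sum.inl a : α ⊕ ι).isRight = true
      then ε else 1) = 1 := by
    refine Finset.prod_eq_one fun a _ => ?_
    rw [if_neg (by simp)]
  have e5 : ∏ j : ι, (if (σ (Sum.inr j)).isRight = true ∧ (Sum.inr j : α ⊕ ι).isRight = true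
      then ε else 1) = ∏ j : ι, (if (σ (Sum.inr j)).isRight = true then ε else 1) := by
    refine Finset.prod_congr rfl fun j _ => ?_
    simp
  rw [e4, e5, one_mul, Finset.prod_ite, Finset.prod_const, Finset.prod_const, one_pow, mul_one]
  exact pow_le_pow_of_le_one h0 h1 (card_right _)

/-- **Row MNP** -/
theorem mnp : MnpStmt := by
  classical
  intro K _ v ι G _ _ _ c γ M A B ω χ ε hv h0 h1 hω hχ hAB hM
  -- the weight of the row `(g, s)`
  have hβ : ∀ p : G × Fin c, ∃ b : ℝ, 0 < b ∧ (∀ j, v (B p.1 p.2 j) ≤ b * χ j) ∧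
      (∀ i, γ i = p.1 → (∃ j, B p.1 p.2 j ≠ 0) → v (A i p.2) ≤ ω i * b⁻¹) := by
    rintro ⟨g, s⟩
    by_cases hz : ∃ j, B g s j ≠ 0
    · obtain ⟨j1, hj1⟩ := hz
      have : Nonempty ι := ⟨j1⟩
      obtain ⟨j0, hj0⟩ := Finite.exists_max fun j => v (B g s j) / χ j
      have hpos : 0 < v (B g s j0) / χ j0 :=
        (div_pos (v.pos hj1) (hχ j1)).trans_le (hj0 j1)
      refine ⟨v (B g s j0) / χ j0, hpos, ?_, ?_⟩
      · intro j
        exact (div_le_iff₀ (hχ j)).mp (hj0 j)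
      · intro i hi _
        have h2 := hAB i s j0
        rw [hi] at h2
        rw [le_mul_inv_iff₀ hpos, ← mul_div_assoc, div_le_iff₀ (hχ j0)]
        exact h2
    · refine ⟨1, one_pos, ?_, ?_⟩
      · intro j
        have h2 : B g s j = 0 := by
          by_contra h
          exact hz ⟨j, h⟩
        simp only [h2, map_zero, one_mul]
        exact (hχ j).le
      · intro i _ h
        exact absurd h hz
  choose β hβ0 hβ1 hβ2 using hβ
  obtain ⟨E, hE⟩ : ∃ E : Matrix ι ι K,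
      E = Matrix.of fun i j => M i j - ∑ s, A i s * B (γ i) s j := ⟨_, rfl⟩
  obtain ⟨Z, hZ⟩ : ∃ Z : Matrix ((G × Fin c) ⊕ ι) ((G × Fin c) ⊕ ι) K,
      Z = Matrix.fromBlocks 1 (Matrix.of fun p j => B p.1 p.2 j)
        (Matrix.of fun i p => -(if γ i = p.1 ∧ (∃ j, B p.1 p.2 j ≠ 0) then A i p.2 else 0)) E :=
    ⟨_, rfl⟩
  have hdet : Z.det = M.det := by
    rw [hZ, Matrix.det_fromBlocks_one₁₁]
    congr 1
    ext i j
    rw [Matrix.sub_apply, Matrix.mul_apply, hE, Matrix.of_apply]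
    simp only [Matrix.of_apply, neg_mul, Finset.sum_neg_distrib, sub_neg_eq_add]
    rw [Fintype.sum_prod_type]
    have h2 : ∑ g : G, ∑ s : Fin c,
        (if γ i = g ∧ (∃ j, B g s j ≠ 0) then A i s else 0) * B g s j =
        ∑ s, A i s * B (γ i) s j := by
      rw [Finset.sum_eq_single (γ i)]
      · refine Finset.sum_congr rfl fun s _ => ?_
        by_cases hz : ∃ j, B (γ i) s j ≠ 0
        · rw [if_pos ⟨rfl, hz⟩]
        · have h3 : B (γ i) s j = 0 := by
            by_contra h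
            exact hz ⟨j, h⟩
          rw [h3, mul_zero, mul_zero]
      · intro g _ hg
        refine Finset.sum_eq_zero fun s _ => ?_
        rw [if_neg (fun h => hg h.1.symm), zero_mul]
      · intro h
        exact absurd (Finset.mem_univ _) h
    rw [h2]
    ring
  have hb := det_block_w v Z β ω χ ε hv h0 h1 hβ0 (fun i => (hω i).le) (fun j => (hχ j).le) (by
      intro a b
      rw [hZ, Matrix.fromBlocks_apply₁₁, Matrix.one_apply]
      split_ifs with h
      · rw [h, map_one, mul_inv_cancel₀ (hβ0 b).ne']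
      · rw [map_zero]
        exact mul_nonneg (hβ0 a).le (inv_nonneg.mpr (hβ0 b).le)) (by
      intro a j
      rw [hZ, Matrix.fromBlocks_apply₁₂, Matrix.of_apply]
      exact hβ1 a j) (by
      intro i b
      rw [hZ, Matrix.fromBlocks_apply₂₁, Matrix.of_apply, v.map_neg]
      split_ifs with h
      · exact hβ2 b i h.1 h.2
      · rw [map_zero]
        exact mul_nonneg (hω i).le (inv_nonneg.mpr (hβ0 b).le)) (by
      intro i j
      rw [hZ, Matrix.fromBlocks_apply₂₂, hE, Matrix.of_apply]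
      exact hM i j)
  rw [hdet, Fintype.card_prod, Fintype.card_fin, mul_comm (Fintype.card G) c] at hb
  exact hb

end Pool.Agent.SZG.H40
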