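import Pool.Agent.SZG.StmtsD3
import Pool.Agent.Helper94_SZG.PFG
import Pool.Agent.Helper41_SZG.DBW
import Pool.Agent.Helper40_SZG.MNP

/-!
# SZG row DMI: the main determinant inequality (helper40)
-/

set_option autoImplicit false

namespace Pool.Agent.SZG.H40

open scoped BigOperators
open NumberField
open Pool.Agent.THS (Short nv qv)

theorem nv_pos' {K ι : Type} [Field K] [Finite ι] (v : AbsoluteValue K ℝ) {x : ι → K}
    (hx : x ≠ 0) : 0 < nv v x := by
  obtain ⟨i, hi⟩ := Function.ne_iff.mp hx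
  exact (v.pos hi).trans_le (le_ciSup (Set.finite_range fun i => v (x i)).bddAbove i)

theorem dmi : DmiStmt := by
  classical
  intro K _ _ ι J _ _ _ _ Y M P Q ω χ n m c N L C S θ hY hM hn hC hP hQ hω hχ hinf hfin hS hr
  set r := Fintype.card ι with hrdef
  have hr1 : 1 ≤ r := Fintype.card_pos
  set w : K := (∏ i, P i) * ∏ i, Q i with hw
  have hw0 : w ≠ 0 := mul_ne_zero (Finset.prod_ne_zero_iff.mpr fun i _ => hP i)
    (Finset.prod_ne_zero_iff.mpr fun i _ => hQ i)
  have hC0 : 0 ≤ C := zero_le_one.trans hC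
  have hω0 : ∀ (v : AbsoluteValue K ℝ) i, 0 < ω v i := by
    intro v i
    refine lt_of_le_of_ne (hω v i).1 ?_
    intro h
    have h1 := (hω v i).2
    rw [← h, zero_pow hn.ne'] at h1
    exact (v.pos (hP i)).ne h1
  have hχ0 : ∀ (v : AbsoluteValue K ℝ) i, 0 < χ v i := by
    intro v i
    refine lt_of_le_of_ne (hχ v i).1 ?_
    intro h
    have h1 := (hχ v i).2
    rw [← h, zero_pow hn.ne'] at h1
    exact (v.pos (hQ i)).ne h1
  have hvw : ∀ v : AbsoluteValue K ℝ, ((∏ i, ω v i) * ∏ i, χ v i) ^ n = v w := by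
    intro v
    rw [mul_pow, ← Finset.prod_pow, ← Finset.prod_pow, hw, map_mul, map_prod, map_prod]
    congr 1
    · exact Finset.prod_congr rfl fun i _ => (hω v i).2
    · exact Finset.prod_congr rfl fun i _ => (hχ v i).2
  have hW0 : ∀ v : AbsoluteValue K ℝ, 0 ≤ (∏ i, ω v i) * ∏ i, χ v i := fun v =>
    mul_nonneg (Finset.prod_nonneg fun i _ => (hω0 v i).le)
      (Finset.prod_nonneg fun i _ => (hχ0 v i).le)
  have hY0 : ∀ v : AbsoluteValue K ℝ, 0 < nv v Y := fun v => nv_pos' v hY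
  -- the constant
  obtain ⟨C1, hC1⟩ : ∃ C1 : ℝ, C1 = r.factorial * C ^ r := ⟨_, rfl⟩
  have hC10 : 0 < C1 := by
    rw [hC1]
    exact mul_pos (by exact_mod_cast Nat.factorial_pos r) (pow_pos (zero_lt_one.trans_le hC) r)
  -- the infinite places
  have hI : ∀ v : InfinitePlace K, v.val M.det ^ n ≤ v.val w * (C1 * nv v.val Y ^ r) ^ n := by
    intro v
    have h1 := (Pool.Agent.SZG.H41.dbw K v.val ι M (fun i => C * nv v.val Y * ω v.val i)
      (χ v.val) (fun i => mul_nonneg (mul_nonneg hC0 (hY0 _).le) (hω0 _ i).le)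
      (fun i => (hχ0 _ i).le) (fun i j => by
        rw [mul_assoc (C * nv v.val Y)]
        exact hinf v i j)).1
    rw [Finset.prod_mul_distrib, Finset.prod_const, Finset.card_univ, ← hrdef] at h1
    have h2 : v.val M.det ≤ (C1 * nv v.val Y ^ r) * ((∏ i, ω v.val i) * ∏ i, χ v.val i) := by
      refine h1.trans (le_of_eq ?_)
      rw [hC1, mul_pow]
      ring
    calc v.val M.det ^ n ≤ ((C1 * nv v.val Y ^ r) *
          ((∏ i, ω v.val i) * ∏ i, χ v.val i)) ^ n := pow_le_pow_left₀ (v.val.nonneg _) h2 n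
      _ = v.val w * (C1 * nv v.val Y ^ r) ^ n := by rw [mul_pow, hvw, mul_comm]
  -- the finite places
  have hF : ∀ v : FinitePlace K,
      (v.val 2 ^ (m * r) * v.val M.det) ^ n ≤ v.val w * (nv v.val Y ^ r) ^ n := by
    intro v
    have hna : IsNonarchimedean v.val := fun a b => NumberField.FinitePlace.add_le v a b
    have h1 := (Pool.Agent.SZG.H41.dbw K v.val ι ((2 : K) ^ m • M)
      (fun i => nv v.val Y * ω v.val i)
      (χ v.val) (fun i => mul_nonneg (hY0 _).le (hω0 _ i).le)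
      (fun i => (hχ0 _ i).le) (fun i j => by
        rw [mul_assoc (nv v.val Y), Matrix.smul_apply, smul_eq_mul, map_mul, map_pow]
        exact hfin v i j)).2 hna
    rw [Finset.prod_mul_distrib, Finset.prod_const, Finset.card_univ, ← hrdef,
      Matrix.det_smul, map_mul, ← hrdef, map_pow, map_pow, ← pow_mul] at h1
    have h2 : v.val 2 ^ (m * r) * v.val M.det ≤
        nv v.val Y ^ r * ((∏ i, ω v.val i) * ∏ i, χ v.val i) := by
      refine h1.trans (le_of_eq ?_)
      ring
    calc (v.val 2 ^ (m * r) * v.val M.det) ^ n ≤ (nv v.val Y ^ r *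
          ((∏ i, ω v.val i) * ∏ i, χ v.val i)) ^ n :=
          pow_le_pow_left₀ (mul_nonneg (pow_nonneg (v.val.nonneg _) _) (v.val.nonneg _)) h2 n
      _ = v.val w * (nv v.val Y ^ r) ^ n := by rw [mul_pow, hvw, mul_comm]
  -- the places of `S`
  obtain ⟨p, hp⟩ : ∃ p : FinitePlace K → ℝ, p = fun v => if v ∈ S then
      ((θ v)⁻¹) ^ (L * (r - c * N)) else 1 := ⟨_, rfl⟩
  have hp0 : ∀ v, 0 ≤ p v := by
    intro v
    rw [hp]
    dsimp only
    split_ifs with h
    · exact pow_nonneg (inv_nonneg.mpr (hS v h).2.1.le) _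
    · exact zero_le_one
  have hPS : ∀ v ∈ S, (p v * (v.val 2 ^ (m * r) * v.val M.det)) ^ n ≤
      v.val w * (nv v.val Y ^ r) ^ n := by
    intro v hv
    have hna : IsNonarchimedean v.val := fun a b => NumberField.FinitePlace.add_le v a b
    obtain ⟨h2, hθ0, hθ1, G, hG, γ, A, B, hGN, hAB, hE⟩ := hS v hv
    have h1 := mnp K v.val ι G c γ M A B (fun i => nv v.val Y * ω v.val i) (χ v.val) (θ v ^ L)
      hna (pow_nonneg hθ0.le L) (pow_le_one₀ hθ0.le hθ1)
      (fun i => mul_pos (hY0 _) (hω0 _ i)) (fun j => hχ0 _ j)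
      (fun i s j => by rw [mul_assoc (nv v.val Y)]; exact hAB i s j)
      (fun i j => by rw [mul_assoc (nv v.val Y)]; exact hE i j)
    rw [Finset.prod_mul_distrib, Finset.prod_const, Finset.card_univ, ← hrdef] at h1
    have h3 : (θ v ^ L) ^ (r - c * Fintype.card G) ≤ (θ v ^ L) ^ (r - c * N) := by
      refine pow_le_pow_of_le_one (pow_nonneg hθ0.le L) (pow_le_one₀ hθ0.le hθ1) ?_
      have : c * Fintype.card G ≤ c * N := Nat.mul_le_mul_left c hGN
      omega
    have hZ : 0 ≤ nv v.val Y ^ r * ((∏ i, ω v.val i) * ∏ i, χ v.val i) :=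
      mul_nonneg (pow_nonneg (hY0 _).le _) (hW0 _)
    have h4 : p v * (v.val 2 ^ (m * r) * v.val M.det) ≤
        nv v.val Y ^ r * ((∏ i, ω v.val i) * ∏ i, χ v.val i) := by
      have h5 : p v = ((θ v)⁻¹) ^ (L * (r - c * N)) := by
        rw [hp]
        dsimp only
        rw [if_pos hv]
      have h6 : v.val M.det ≤ (θ v ^ L) ^ (r - c * N) *
          (nv v.val Y ^ r * ((∏ i, ω v.val i) * ∏ i, χ v.val i)) := by
        refine h1.trans ?_
        rw [mul_assoc (nv v.val Y ^ r)]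
        exact mul_le_mul_of_nonneg_right h3 hZ
      have h7 : ((θ v)⁻¹) ^ (L * (r - c * N)) * (θ v ^ L) ^ (r - c * N) = 1 := by
        rw [← pow_mul, ← mul_pow, inv_mul_cancel₀ hθ0.ne', one_pow]
      rw [h2, one_pow, one_mul, h5]
      calc ((θ v)⁻¹) ^ (L * (r - c * N)) * v.val M.det
          ≤ ((θ v)⁻¹) ^ (L * (r - c * N)) * ((θ v ^ L) ^ (r - c * N) *
            (nv v.val Y ^ r * ((∏ i, ω v.val i) * ∏ i, χ v.val i))) :=
            mul_le_mul_of_nonneg_left h6 (pow_nonneg (inv_nonneg.mpr hθ0.le) _)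
        _ = nv v.val Y ^ r * ((∏ i, ω v.val i) * ∏ i, χ v.val i) := by
            rw [← mul_assoc, h7, one_mul]
    calc (p v * (v.val 2 ^ (m * r) * v.val M.det)) ^ n ≤ (nv v.val Y ^ r *
          ((∏ i, ω v.val i) * ∏ i, χ v.val i)) ^ n :=
          pow_le_pow_left₀ (mul_nonneg (hp0 v) (mul_nonneg (pow_nonneg (v.val.nonneg _) _)
            (v.val.nonneg _))) h4 n
      _ = v.val w * (nv v.val Y ^ r) ^ n := by rw [mul_pow, hvw, mul_comm]
  -- the product formula
  have hmain := Pool.Agent.SZG.H94.pfg K J Y M.det w (m * r) r n C1 S p hY hM hw0 hC10.le hn hp0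
    hI hF hPS
  -- logarithms
  have hpS : ∏ v ∈ S, p v = ∏ v ∈ S, ((θ v)⁻¹) ^ (L * (r - c * N)) := by
    refine Finset.prod_congr rfl fun v hv => ?_
    rw [hp]
    dsimp only
    rw [if_pos hv]
  rw [hpS] at hmain
  have hpos : 0 < ∏ v ∈ S, ((θ v)⁻¹) ^ (L * (r - c * N)) :=
    Finset.prod_pos fun v hv => pow_pos (inv_pos.mpr (hS v hv).2.1) _
  have hH : 0 < Height.mulHeight Y := by
    have h1 := Height.one_le_mulHeight Y
    linarith
  have hlog := Real.log_le_log hpos hmain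
  rw [Real.log_prod (fun v hv => (pow_pos (inv_pos.mpr (hS v hv).2.1) _).ne'),
    Real.log_mul (pow_pos (mul_pos hC10 (by positivity)) _).ne' (pow_pos hH _).ne',
    Real.log_pow, Real.log_pow, Real.log_mul hC10.ne' (by positivity), Real.log_pow] at hlog
  have hsum : ∑ v ∈ S, Real.log (((θ v)⁻¹) ^ (L * (r - c * N))) =
      (L * (r - c * N) : ℕ) * ∑ v ∈ S, -Real.log (θ v) := by
    rw [Finset.mul_sum]
    refine Finset.sum_congr rfl fun v _ => ?_
    rw [Real.log_pow, Real.log_inv]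
  rw [hsum] at hlog
  have hT0 : 0 ≤ ∑ v ∈ S, -Real.log (θ v) := by
    refine Finset.sum_nonneg fun v hv => ?_
    have h1 := Real.log_nonpos (hS v hv).2.1.le (hS v hv).2.2.1
    linarith
  have hrR : (0 : ℝ) < r := by exact_mod_cast hr1
  -- `r - c N ≥ r / 2`
  have hhalf : (r : ℝ) * ((L : ℝ) / 2 * ∑ v ∈ S, -Real.log (θ v)) ≤
      ((L * (r - c * N) : ℕ) : ℝ) * ∑ v ∈ S, -Real.log (θ v) := by
    rw [← mul_assoc]
    refine mul_le_mul_of_nonneg_right ?_ hT0
    have h1 : r ≤ 2 * (r - c * N) := by omega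
    have h2 : (r : ℝ) ≤ 2 * ((r - c * N : ℕ) : ℝ) := by exact_mod_cast h1
    push_cast
    have hL : (0 : ℝ) ≤ L := Nat.cast_nonneg L
    nlinarith
  -- `log C1 ≤ r (log C + log r)`
  have hC1log : Real.log C1 ≤ r * (Real.log C + Real.log r) := by
    rw [hC1, Real.log_mul (by exact_mod_cast (Nat.factorial_pos r).ne')
      (pow_pos (zero_lt_one.trans_le hC) r).ne', Real.log_pow]
    have h1 : Real.log (r.factorial : ℝ) ≤ r * Real.log r := by
      have h2 : (r.factorial : ℝ) ≤ (r : ℝ) ^ r := by exact_mod_cast Nat.factorial_le_pow r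
      have h3 := Real.log_le_log (by exact_mod_cast Nat.factorial_pos r) h2
      rwa [Real.log_pow] at h3
    linarith
  have hd : (0 : ℝ) ≤ Module.finrank ℚ K := Nat.cast_nonneg _
  have hfinal : (r : ℝ) * ((L : ℝ) / 2 * ∑ v ∈ S, -Real.log (θ v)) ≤
      r * (Real.log (Height.mulHeight Y) +
        Module.finrank ℚ K * (Real.log C + Real.log r + m * Real.log 2)) := by
    refine hhalf.trans (hlog.trans ?_)
    push_cast
    have h1 : (Module.finrank ℚ K : ℝ) * (Real.log C1 + m * r * Real.log 2) ≤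
        (Module.finrank ℚ K : ℝ) * (r * (Real.log C + Real.log r) + m * r * Real.log 2) :=
      mul_le_mul_of_nonneg_left (by linarith) hd
    refine (add_le_add_left h1 _).trans (le_of_eq ?_)
    ring
  exact le_of_mul_le_mul_left hfinal hrR

end Pool.Agent.SZG.H40
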