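import Pool.Agent.SZG.StmtsF

/-!
# SZG row SCG: the scalars (helper40)
-/

set_option autoImplicit false

namespace Pool.Agent.SZG.H40

open scoped BigOperators
open Pool.Agent.THS

section

variable {K : Type} [Field K] (φ : K →+* ℂ)

/-- in the image of `φ`, not zero -/
def IFs (z : ℂ) : Prop := ∃ y : K, y ≠ 0 ∧ φ y = z

variable {φ}

theorem ifs_mul {z w : ℂ} (hz : IFs φ z) (hw : IFs φ w) : IFs φ (z * w) := by
  obtain ⟨y, hy, rfl⟩ := hz
  obtain ⟨u, hu, rfl⟩ := hw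
  exact ⟨y * u, mul_ne_zero hy hu, map_mul _ _ _⟩

theorem ifs_inv {z : ℂ} (hz : IFs φ z) : IFs φ z⁻¹ := by
  obtain ⟨y, hy, rfl⟩ := hz
  exact ⟨y⁻¹, inv_ne_zero hy, map_inv₀ _ _⟩

theorem ifs_ne {z : ℂ} (hz : IFs φ z) : z ≠ 0 := by
  obtain ⟨y, hy, rfl⟩ := hz
  exact (map_ne_zero φ).mpr hy

theorem ifs_of {z : ℂ} (hz : ∃ y : K, φ y = z) (h0 : z ≠ 0) : IFs φ z := by
  obtain ⟨y, rfl⟩ := hz
  exact ⟨y, fun h => h0 (by rw [h, map_zero]), rfl⟩

variable (φ)

/-- the quotient group -/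
abbrev QG : Type := Additive (ℂˣ ⧸ (Units.map (φ : K →* ℂ)).range)

/-- the class of a nonzero number -/
noncomputable def cls (z : ℂˣ) : QG φ := Additive.ofMul (QuotientGroup.mk z)

theorem cls_mul (z w : ℂˣ) : cls φ (z * w) = cls φ z + cls φ w := rfl

theorem cls_one : cls φ 1 = 0 := rfl

theorem cls_eq {z w : ℂˣ} : cls φ z = cls φ w ↔ IFs φ ((w : ℂ) / z) := by
  unfold cls
  rw [Equiv.apply_eq_iff_eq, QuotientGroup.eq]
  constructor
  · rintro ⟨y, hy⟩
    refine ⟨(y : K), y.ne_zero, ?_⟩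
    have h1 := congrArg (fun u : ℂˣ => (u : ℂ)) hy
    simp only [Units.coe_map, MonoidHom.coe_coe, Units.val_mul, Units.val_inv_eq_inv_val] at h1
    rw [h1, div_eq_inv_mul]
  · rintro ⟨y, hy, h⟩
    refine ⟨Units.mk0 y hy, ?_⟩
    ext
    simp only [Units.coe_map, MonoidHom.coe_coe, Units.val_mul, Units.val_inv_eq_inv_val,
      Units.val_mk0]
    rw [h, div_eq_inv_mul]

/-- the class of the exponential -/
noncomputable def pie : ℂ →+ QG φ :=
  AddMonoidHom.mk' (fun t => cls φ (Units.mk0 (Complex.exp t) (Complex.exp_ne_zero t))) (by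
    intro a b
    rw [← cls_mul]
    congr 1
    ext
    simp [Complex.exp_add])

theorem pie_apply (t : ℂ) :
    pie φ t = cls φ (Units.mk0 (Complex.exp t) (Complex.exp_ne_zero t)) := rfl

theorem pie_surj : Function.Surjective (pie φ) := by
  intro q
  obtain ⟨z, hz⟩ : ∃ z : ℂˣ, cls φ z = q := by
    obtain ⟨z, hz⟩ := QuotientGroup.mk_surjective (Additive.toMul q)
    exact ⟨z, by unfold cls; rw [hz]; rfl⟩
  refine ⟨Complex.log z, ?_⟩
  rw [pie_apply, ← hz]
  congr 1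
  ext
  exact Complex.exp_log z.ne_zero

end

/-- **SCG** -/
theorem scg (hRgi : RgiStmt) (hPlg : PlgStmt) (hQff : QffStmt) : ScgStmt := by
  classical
  intro g K I _ _ _ _ φ θ V x μ h1 h2 h3 h4 h5
  have hinj : Function.Injective φ := φ.injective
  have h2K : (2 : K) ≠ 0 := by
    intro h
    have h6 := congrArg φ h
    rw [map_ofNat, map_zero] at h6
    exact two_ne_zero h6
  have hch : ∀ e d : Ch g, (e + d) + d = e := by
    intro e d
    funext r
    simp only [Pi.add_apply]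
    rw [add_assoc]
    have : d r + d r = 0 := CharTwo.add_self_eq_zero _
    rw [this, add_zero]
  -- (R0)
  have R0 : ∀ (i j : I) (e' d : Ch g), ∃ y : K,
      φ y = μ i * μ j * (θ (i + j) e' * θ (i - j) d) := by
    intro i j e' d
    have h6 := hRgi g ℂ I θ (e' + d) d i j
    rw [hch] at h6
    refine ⟨((2 : K) ^ g)⁻¹ * ∑ b : Ch g, (sgn b e' : K) *
      (x i (e' + d, b) * x j (e' + d, b)), ?_⟩
    rw [map_mul, map_inv₀, map_pow, map_ofNat, map_sum]
    have h7 : ∑ b : Ch g, φ ((sgn b e' : K) * (x i (e' + d, b) * x j (e' + d, b))) =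
        μ i * μ j * ∑ b : Ch g, (sgn b e' : ℂ) * RG θ (e' + d) b i j := by
      rw [Finset.mul_sum]
      refine Finset.sum_congr rfl fun b _ => ?_
      rw [map_mul, map_mul, map_intCast, h4, h4, ← h3]
      ring
    rw [h7, h6]
    have h8 : (2 : ℂ) ^ g ≠ 0 := pow_ne_zero _ two_ne_zero
    field_simp
  have R0' : ∀ (i j k l : I) (e' d : Ch g), i + j = k → i - j = l → θ k e' ≠ 0 → θ l d ≠ 0 →
      IFs φ (μ i * μ j * (θ k e' * θ l d)) := by
    intro i j k l e' d hk hl he hd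
    refine ifs_of ?_ (mul_ne_zero (mul_ne_zero (h5 i) (h5 j)) (mul_ne_zero he hd))
    rw [← hk, ← hl]
    exact R0 i j e' d
  obtain ⟨c0, hc0⟩ := h1 0
  have hA0 : IFs φ (μ 0 * μ 0 * (θ 0 c0 * θ 0 c0)) :=
    R0' 0 0 0 0 c0 c0 (by simp) (by simp) hc0 hc0
  -- the parallelogram law
  have hpar : ∀ i j : I, IFs φ (μ i * μ i * (μ j * μ j) / (μ (i + j) * μ (i - j) *
      (μ 0 * μ 0))) := by
    intro i j
    obtain ⟨e', he⟩ := h1 (i + i)
    obtain ⟨d, hd⟩ := h1 (j + j)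
    have hA := R0' (i + j) (i - j) (i + i) (j + j) e' d (by abel) (by abel) he hd
    have hB := R0' i i (i + i) 0 e' c0 rfl (by simp) he hc0
    have hC := R0' j j (j + j) 0 d c0 rfl (by simp) hd hc0
    have hD := ifs_mul (ifs_mul hB hC) (ifs_inv (ifs_mul hA hA0))
    refine (congrArg (IFs φ) ?_).mp hD
    have := h5 0; have := h5 (i + j); have := h5 (i - j)
    field_simp
  -- the class of `μ_i / μ_0`
  obtain ⟨h, hh⟩ : ∃ h : I → QG φ, h = fun i => cls φ (Units.mk0 (μ i / μ 0)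
      (div_ne_zero (h5 i) (h5 0))) := ⟨_, rfl⟩
  have hh' : ∀ i, h i = cls φ (Units.mk0 (μ i / μ 0) (div_ne_zero (h5 i) (h5 0))) := by
    intro i; rw [hh]
  have hh0 : h 0 = 0 := by
    rw [hh', ← cls_one]
    congr 1
    ext
    simp [div_self (h5 0)]
  have hlaw : ∀ i j, h (i + j) + h (i - j) = 2 • h i + 2 • h j := by
    intro i j
    rw [two_nsmul, two_nsmul, hh', hh', hh', hh', ← cls_mul, ← cls_mul, ← cls_mul, ← cls_mul,
      cls_eq]
    refine (congrArg (IFs φ) ?_).mp (hpar i j)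
    simp only [Units.val_mul, Units.val_mk0]
    have := h5 0; have := h5 (i + j); have := h5 (i - j)
    field_simp
  obtain ⟨hev, hcub⟩ := hPlg I (QG φ) h hh0 hlaw
  obtain ⟨B, hBs, hBa, hBf⟩ := hQff I (QG φ) (pie φ) (fun i => 2 • h i) (pie_surj φ)
    (by show 2 • h 0 = 0; rw [two_nsmul, hh0]; exact add_zero (0 : QG φ)) (fun i => by simp only [hev])
    (fun i j k => hcub i j k)
  -- the exponentials
  have hexp : ∀ i, ∃ y : K, y ≠ 0 ∧ Complex.exp (B i i) = (μ i / μ 0) ^ 2 * φ y := by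
    intro i
    have h6 := hBf i
    rw [pie_apply, two_nsmul, hh', ← cls_mul, cls_eq] at h6
    obtain ⟨y, hy, hy'⟩ := ifs_inv h6
    refine ⟨y, hy, ?_⟩
    rw [hy']
    simp only [Units.val_mul, Units.val_mk0]
    have := h5 0; have := h5 i; have := Complex.exp_ne_zero (B i i)
    field_simp
  have hT : ∀ (i : I) (c : Ch g), ∃ t : K,
      φ t = μ 0 ^ 2 * θ 0 c0 * Complex.exp (B i i) * θ (i + i) c := by
    intro i c
    obtain ⟨y, hy, hye⟩ := hexp i
    obtain ⟨u, hu⟩ := R0 i i c c0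
    refine ⟨y * u, ?_⟩
    rw [map_mul, hu, hye, sub_self]
    have := h5 0
    field_simp
  choose T hT using hT
  have hl0 : μ 0 ^ 2 * θ 0 c0 ≠ 0 := mul_ne_zero (pow_ne_zero _ (h5 0)) hc0
  -- `σ_i`
  obtain ⟨σ, hσ⟩ : ∃ σ : I → ℂ, σ = fun i => μ 0 ^ 2 * θ 0 c0 * Complex.exp (2 * B i i) /
      μ (i + i) := ⟨_, rfl⟩
  have hσ0 : ∀ i, σ i ≠ 0 := by
    intro i
    rw [hσ]
    exact div_ne_zero (mul_ne_zero hl0 (Complex.exp_ne_zero _)) (h5 _)
  have hBl : ∀ i j, B (i + j) (i + j) + B (i - j) (i - j) = 2 * B i i + 2 * B j j := by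
    intro i j
    have hB0 : ∀ k, B 0 k = 0 := by
      intro k
      have := hBa 0 0 k
      rw [add_zero] at this
      simpa using this
    have hBn : ∀ i k, B (-i) k = -B i k := by
      intro i k
      have := hBa i (-i) k
      rw [add_neg_cancel, hB0] at this
      exact (neg_eq_of_add_eq_zero_right this.symm).symm
    have e1 : B (i + j) (i + j) = B i i + B i j + (B j i + B j j) := by
      rw [hBa, hBs i (i + j), hBs j (i + j), hBa, hBa, hBs j i]
    have e2 : B (i - j) (i - j) = B i i - B i j - (B j i - B j j) := by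
      rw [sub_eq_add_neg, hBa, hBs i (i + -j), hBs (-j) (i + -j), hBa, hBa, hBn, hBn,
        hBs i (-j), hBs j (-j), hBn, hBn, hBs j i]
      ring
    rw [e1, e2]
    ring
  have hRG : ∀ a b i j, φ (RG T a b i j) =
      σ i * σ j * φ (x (i + i) (a, b) * x (j + j) (a, b)) := by
    intro a b i j
    have e1 : (i + j) + (i + j) = (i + i) + (j + j) := by abel
    have e2 : (i - j) + (i - j) = (i + i) - (j + j) := by abel
    have e3 : φ (RG T a b i j) = (μ 0 ^ 2 * θ 0 c0) ^ 2 *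
        Complex.exp (B (i + j) (i + j) + B (i - j) (i - j)) * RG θ a b (i + i) (j + j) := by
      unfold RG
      rw [map_sum, Finset.mul_sum]
      refine Finset.sum_congr rfl fun c _ => ?_
      rw [map_mul, map_mul, map_intCast, hT, hT, e1, e2, Complex.exp_add]
      ring
    rw [e3, hBl, Complex.exp_add, ← h3, hσ, map_mul, h4, h4]
    have := h5 (i + i); have := h5 (j + j)
    field_simp
  have hTne : ∀ i, ∃ c, T i c ≠ 0 := by
    intro i
    obtain ⟨c, hc⟩ := h1 (i + i)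
    refine ⟨c, fun h => ?_⟩
    have h6 := hT i c
    rw [h, map_zero] at h6
    exact mul_ne_zero (mul_ne_zero hl0 (Complex.exp_ne_zero _)) hc h6.symm
  have hσF : ∀ i j, IFs φ (σ i * σ j) := by
    intro i j
    have hex : ∃ a b, RG T a b i j ≠ 0 := by
      by_contra hcon'
      have hcon : ∀ a b, RG T a b i j = 0 := fun a b =>
        by_contra fun h => hcon' ⟨a, b, h⟩
      obtain ⟨e', he⟩ := hTne (i + j)
      obtain ⟨d, hd⟩ := hTne (i - j)
      have h6 := hRgi g K I T (e' + d) d i j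
      rw [hch] at h6
      rw [Finset.sum_eq_zero (fun b _ => by rw [hcon, mul_zero])] at h6
      exact mul_ne_zero (pow_ne_zero g h2K) (mul_ne_zero he hd) h6.symm
    obtain ⟨a, b, hab⟩ := hex
    have h6 := hRG a b i j
    have h7 : φ (RG T a b i j) ≠ 0 := (map_ne_zero φ).mpr hab
    have h8 : φ (x (i + i) (a, b) * x (j + j) (a, b)) ≠ 0 := by
      intro h
      rw [h6, h, mul_zero] at h7
      exact h7 rfl
    refine ifs_of ⟨RG T a b i j / (x (i + i) (a, b) * x (j + j) (a, b)), ?_⟩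
      (mul_ne_zero (hσ0 i) (hσ0 j))
    rw [map_div₀, h6]
    field_simp
  obtain ⟨s, hs0, hs⟩ := hσF 0 0
  have hκ : ∀ i, ∃ κ : K, κ ≠ 0 ∧ φ κ = σ i / σ 0 := by
    intro i
    have h6 := ifs_mul (hσF i 0) (ifs_inv (hσF 0 0))
    refine (congrArg (IFs φ) ?_).mp h6
    have := hσ0 0
    field_simp
  choose κ hκ0 hκ1 using hκ
  refine ⟨μ 0 ^ 2 * θ 0 c0, B, T, s, κ, hl0, hs0, hκ0, hBs, hBa, hT, ?_⟩
  intro a b i j
  apply hinj
  rw [hRG, map_mul φ s, hs, map_mul φ (κ i * _), map_mul φ (κ i), map_mul φ (κ j), hκ1, hκ1,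
    map_mul]
  have := hσ0 0
  field_simp

end Pool.Agent.SZG.H40
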