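import Pool.Agent.SZG.StmtsD
import Pool.Agent.Helper27_THS.SHM

/-!
# Squad SZG, row SHO: the shortness lemma
-/

set_option autoImplicit false

namespace Pool.Agent.SZG.H40

open scoped BigOperators
open Pool.Agent.THS (Short nv qv)
open Pool.Agent.SZG

theorem Short.congr' {K : Type} [Field K] {v : AbsoluteValue K ℝ} {c : ℕ} {ε : ℝ}
    {F G : ℤ → ℤ → K} (h : Short v c ε F) (e : ∀ k s, F k s = G k s) : Short v c ε G := by
  have : F = G := funext fun k => funext fun s => e k s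
  rw [← this]
  exact h

/-- the hypotheses of the induction -/
structure HS {K : Type} [Field K] (v : AbsoluteValue K ℝ) (θ : ℝ) (c0 n : ℕ) {ι : Type}
    [Fintype ι] (o : ℤ → ι) (r : ι → ℤ → ℤ → K) : Prop where
  card : Fintype.card ι = n
  na : IsNonarchimedean v
  pos : 0 < θ
  lt : θ < 1
  h1 : ∀ a k s, v (r a k s) ≤ 1
  h2 : ∀ a k s, v (r a k s - r a k 0) ≤ θ
  h3 : ∀ k, r (o k) k 0 = 1
  h4 : ∀ a, Short v c0 0 (fun k s => r a k s * r (o k) k (-s))
  h5 : Short v c0 0 (fun k s => r (o (k + 1)) (k + 1) s * r (o (k - 1)) (k - 1) (-s))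

/-- the induction step -/
theorem step (hSel : SelStmt) (hSum : SumStmt) (c0 n c L : ℕ) : ∃ c' : ℕ,
    ∀ (K : Type) [Field K] (v : AbsoluteValue K ℝ) (θ : ℝ) (ι : Type) [Fintype ι] (o : ℤ → ι)
      (r : ι → ℤ → ℤ → K), HS v θ c0 n o r → (∀ a, Short v c (θ ^ (L + 1)) (r a)) →
        ∀ a, Short v c' (θ ^ (L + 2)) (r a) := by
  refine ⟨(c0 + 1 + (c + 1) * (n * (c + 1))) + ((c0 + 1 + (n * (c + 1)) * (n * (c + 1))) +
    n * (c0 + 1 + (c + 1) * (n * (c + 1))) + 2) + 1, ?_⟩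
  intro K _ v θ ι _ o r H hr
  have hv := H.na
  have hθ := H.pos
  have hθ1 := H.lt
  obtain ⟨pad, add, -, mul, comp⟩ := THS.H27.shm K v hv
  obtain ⟨neg, fk, -, mulk, sel, -⟩ := hSel K v hv
  have hε0 : (0 : ℝ) ≤ θ ^ (L + 1) := by positivity
  have hε0' : (0 : ℝ) ≤ θ ^ (L + 2) := by positivity
  have hεθ : θ ^ (L + 1) ≤ θ := by
    calc θ ^ (L + 1) ≤ θ ^ 1 := pow_le_pow_of_le_one hθ.le hθ1.le (by omega)
      _ = θ := pow_one θ
  have hpow : θ ^ (L + 1) * θ = θ ^ (L + 2) := by rw [← pow_succ]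
  have hρ : ∀ a k, v (r a k 0) ≤ 1 := fun a k => H.h1 a k 0
  -- `E a`
  have hE : ∀ a, Short v (c + 1) (θ ^ (L + 1)) (fun k s => r a k s + -r a k 0) := fun a =>
    add _ _ _ _ _ (hr a) (fk _ (fun k => -r a k 0) hε0 (fun k => by
      rw [AbsoluteValue.map_neg]
      exact hρ a k))
  have hEv : ∀ a k s, v (r a k s + -r a k 0) ≤ θ := fun a k s => by
    rw [← sub_eq_add_neg]
    exact H.h2 a k s
  -- `μ`
  have hμ : Short v (n * (c + 1)) (θ ^ (L + 1)) (fun k s => r (o k) k s + -r (o k) k 0) :=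
    sel n (c + 1) _ ι o (fun a k s => r a k s + -r a k 0) H.card hε0 hE
  have hμm : Short v (n * (c + 1)) (θ ^ (L + 1)) (fun k s => r (o k) k (-s) + -r (o k) k 0) :=
    comp _ _ (fun k s => r (o k) k s + -r (o k) k 0) (fun k => k) (fun s => -s) hμ
  -- (A)
  have hA : ∀ a, Short v (c0 + 1 + (c + 1) * (n * (c + 1))) (θ ^ (L + 2))
      (fun k s => (r a k s + -r a k 0) + r a k 0 * (r (o k) k (-s) + -r (o k) k 0)) := by
    intro a
    have t1 : Short v c0 (θ ^ (L + 2)) (fun k s => r a k s * r (o k) k (-s)) :=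
      pad _ _ _ _ _ le_rfl hε0' (H.h4 a)
    have t2 : Short v 1 (θ ^ (L + 2)) (fun k _ => -r a k 0) := fk _ (fun k => -r a k 0) hε0'
      (fun k => by
        rw [AbsoluteValue.map_neg]
        exact hρ a k)
    have t3 : Short v ((c + 1) * (n * (c + 1))) (θ ^ (L + 2))
        (fun k s => (r a k s + -r a k 0) * (r (o k) k (-s) + -r (o k) k 0)) := by
      have := mul _ _ _ θ _ _ hε0 hεθ hθ1.le (fun k s => hEv a k s)
        (fun k s => hEv (o k) k (-s)) (hE a) hμm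
      rw [hpow] at this
      exact this
    refine Short.congr' (add _ _ _ _ _ (add _ _ _ _ _ t1 t2) (neg _ _ _ t3)) fun k s => ?_
    simp only [H.h3 k]
    ring
  -- (B)
  have hB : Short v (n * (c0 + 1 + (c + 1) * (n * (c + 1)))) (θ ^ (L + 2))
      (fun k s => (r (o k) k s + -r (o k) k 0) + (r (o k) k (-s) + -r (o k) k 0)) := by
    refine Short.congr' (sel n _ _ ι o (fun a k s => (r a k s + -r a k 0) + r a k 0 *
      (r (o k) k (-s) + -r (o k) k 0)) H.card hε0' hA) fun k s => ?_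
    simp only [H.h3 k]
    ring
  -- (C)
  have hC : Short v (c0 + 1 + (n * (c + 1)) * (n * (c + 1))) (θ ^ (L + 2))
      (fun k s => (r (o (k + 1)) (k + 1) s + -r (o (k + 1)) (k + 1) 0) +
        (r (o (k - 1)) (k - 1) (-s) + -r (o (k - 1)) (k - 1) 0)) := by
    have t1 : Short v c0 (θ ^ (L + 2))
        (fun k s => r (o (k + 1)) (k + 1) s * r (o (k - 1)) (k - 1) (-s)) :=
      pad _ _ _ _ _ le_rfl hε0' H.h5
    have t2 : Short v 1 (θ ^ (L + 2)) (fun (_ : ℤ) (_ : ℤ) => (-1 : K)) :=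
      fk _ (fun _ => (-1 : K)) hε0' (fun k => by simp)
    have t3 : Short v ((n * (c + 1)) * (n * (c + 1))) (θ ^ (L + 2))
        (fun k s => (r (o (k + 1)) (k + 1) s + -r (o (k + 1)) (k + 1) 0) *
          (r (o (k - 1)) (k - 1) (-s) + -r (o (k - 1)) (k - 1) 0)) := by
      have := mul _ _ _ θ _ _ hε0 hεθ hθ1.le (fun k s => hEv (o (k + 1)) (k + 1) s)
        (fun k s => hEv (o (k - 1)) (k - 1) (-s))
        (comp _ _ (fun k s => r (o k) k s + -r (o k) k 0) (fun k => k + 1) (fun s => s) hμ)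
        (comp _ _ (fun k s => r (o k) k s + -r (o k) k 0) (fun k => k - 1) (fun s => -s) hμ)
      rw [hpow] at this
      exact this
    refine Short.congr' (add _ _ _ _ _ (add _ _ _ _ _ t1 t2) (neg _ _ _ t3)) fun k s => ?_
    simp only [H.h3 (k + 1), H.h3 (k - 1)]
    ring
  -- (D)
  have hD : Short v (c0 + 1 + (n * (c + 1)) * (n * (c + 1)) +
      n * (c0 + 1 + (c + 1) * (n * (c + 1)))) (θ ^ (L + 2))
      (fun k s => (r (o (k + 1)) (k + 1) s + -r (o (k + 1)) (k + 1) 0) -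
        (r (o (k - 1)) (k - 1) s + -r (o (k - 1)) (k - 1) 0)) := by
    have t1 := comp _ _ (fun k s => (r (o k) k s + -r (o k) k 0) +
      (r (o k) k (-s) + -r (o k) k 0)) (fun k => k - 1) (fun s => s) hB
    refine Short.congr' (add _ _ _ _ _ hC (neg _ _ _ t1)) fun k s => ?_
    ring
  have hM := hSum K v _ _ (fun k s => r (o k) k s + -r (o k) k 0) hv hε0'
    (fun k s => (hEv (o k) k s).trans hθ1.le) hD
  have hMm := comp _ _ (fun k s => r (o k) k s + -r (o k) k 0) (fun k => k) (fun s => -s) hM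
  intro a
  have t1 := mulk _ _ (fun k => r a k 0) _ hε0' (hρ a) hMm
  have t2 : Short v 1 (θ ^ (L + 2)) (fun k _ => r a k 0) := fk _ (fun k => r a k 0) hε0' (hρ a)
  refine Short.congr' (add _ _ _ _ _ (add _ _ _ _ _ (hA a) (neg _ _ _ t1)) t2) fun k s => ?_
  ring

/-- **SHO** -/
theorem sho (hSel : SelStmt) (hSum : SumStmt) : ShoStmt := by
  intro c0 n L
  have key : ∀ L : ℕ, ∃ c : ℕ, ∀ (K : Type) [Field K] (v : AbsoluteValue K ℝ) (θ : ℝ) (ι : Type)
      [Fintype ι] (o : ℤ → ι) (r : ι → ℤ → ℤ → K), HS v θ c0 n o r →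
        ∀ a, Short v c (θ ^ (L + 1)) (r a) := by
    intro L
    induction L with
    | zero =>
      refine ⟨1, ?_⟩
      intro K _ v θ ι _ o r H a
      refine ⟨fun _ k => r a k 0, fun _ _ => 1, fun _ k => H.h1 a k 0, fun _ _ => by simp,
        fun k s => ?_⟩
      rw [Fin.sum_univ_one, mul_one, zero_add, pow_one]
      exact H.h2 a k s
    | succ L ih =>
      obtain ⟨c, hc⟩ := ih
      obtain ⟨c', hc'⟩ := step hSel hSum c0 n c L
      refine ⟨c', ?_⟩
      intro K _ v θ ι _ o r H a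
      exact hc' K v θ ι o r H (fun b => hc K v θ ι o r H b) a
  cases L with
  | zero =>
    refine ⟨0, ?_⟩
    intro K _ v θ ι _ o r _ _ _ _ h1 _ _ _ _ a
    refine ⟨fun j _ => j.elim0, fun j _ => j.elim0, fun j _ => j.elim0, fun j _ => j.elim0,
      fun k s => ?_⟩
    rw [Finset.univ_eq_empty, Finset.sum_empty, sub_zero, pow_zero]
    exact h1 a k s
  | succ L =>
    obtain ⟨c, hc⟩ := key L
    refine ⟨c, ?_⟩
    intro K _ v θ ι _ o r hcard hna hpos hlt h1 h2 h3 h4 h5 a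
    exact hc K v θ ι o r ⟨hcard, hna, hpos, hlt, h1, h2, h3, h4, h5⟩ a

end Pool.Agent.SZG.H40
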