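import Pool.Agent.SZG.StmtsD
import Pool.Agent.Helper27_THS.SHM

/-!
# Squad SZG, row SUM: summation over `k` in steps of two
-/

set_option autoImplicit false

namespace Pool.Agent.SZG.H40

open scoped BigOperators
open Pool.Agent.THS (Short nv qv)
open Pool.Agent.SZG

variable {K : Type} [Field K]

theorem v_sum_le {v : AbsoluteValue K ℝ} (hv : IsNonarchimedean v) {ι : Type} (s : Finset ι)
    (f : ι → K) {ε : ℝ} (hε : 0 ≤ ε) (h : ∀ i ∈ s, v (f i) ≤ ε) : v (∑ i ∈ s, f i) ≤ ε := by
  classical
  induction s using Finset.induction_on with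
  | empty => simpa using hε
  | insert a s ha ih =>
    rw [Finset.sum_insert ha]
    exact (hv _ _).trans (max_le (h a (Finset.mem_insert_self _ _))
      (ih fun i hi => h i (Finset.mem_insert_of_mem hi)))

/-- a summation function -/
theorem tel {v : AbsoluteValue K ℝ} (hv : IsNonarchimedean v) (h : ℤ → K)
    (hh : ∀ q, v (h q) ≤ 1) :
    ∃ H : ℤ → K, H 0 = 0 ∧ (∀ q, H (q + 1) - H q = h q) ∧ ∀ q, v (H q) ≤ 1 := by
  refine ⟨fun q => match q with
    | Int.ofNat n => ∑ i ∈ Finset.range n, h (Int.ofNat i)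
    | Int.negSucc n => -∑ i ∈ Finset.range (n + 1), h (Int.negSucc i), ?_, ?_, ?_⟩
  · show ∑ i ∈ Finset.range 0, h (Int.ofNat i) = 0
    simp
  · intro q
    match q with
    | Int.ofNat n =>
      show ∑ i ∈ Finset.range (n + 1), h (Int.ofNat i) - ∑ i ∈ Finset.range n, h (Int.ofNat i) = _
      rw [Finset.sum_range_succ]
      ring
    | Int.negSucc 0 =>
      show ∑ i ∈ Finset.range 0, h (Int.ofNat i) -
        -∑ i ∈ Finset.range (0 + 1), h (Int.negSucc i) = _
      simp
    | Int.negSucc (n + 1) =>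
      show -∑ i ∈ Finset.range (n + 1), h (Int.negSucc i) -
        -∑ i ∈ Finset.range (n + 1 + 1), h (Int.negSucc i) = _
      rw [Finset.sum_range_succ _ (n + 1)]
      ring
  · intro q
    match q with
    | Int.ofNat n => exact v_sum_le hv _ _ zero_le_one fun i _ => hh _
    | Int.negSucc n =>
      show v (-∑ i ∈ Finset.range (n + 1), h (Int.negSucc i)) ≤ 1
      rw [AbsoluteValue.map_neg]
      exact v_sum_le hv _ _ zero_le_one fun i _ => hh _

/-- small steps -/
theorem walk {v : AbsoluteValue K ℝ} (hv : IsNonarchimedean v) {ε : ℝ} (hε : 0 ≤ ε) (G : ℤ → K)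
    (h : ∀ q, v (G (q + 1) - G q) ≤ ε) (q : ℤ) : v (G q - G 0) ≤ ε := by
  induction q using Int.induction_on with
  | zero => simpa using hε
  | succ i ih =>
    have e : G ((i : ℤ) + 1) - G 0 = (G ((i : ℤ) + 1) - G i) + (G i - G 0) := by ring
    rw [e]
    exact (hv _ _).trans (max_le (h _) ih)
  | pred i ih =>
    have e : G (-(i : ℤ) - 1) - G 0 = -(G ((-(i : ℤ) - 1) + 1) - G (-(i : ℤ) - 1)) +
        (G (-(i : ℤ)) - G 0) := by
      rw [show (-(i : ℤ) - 1) + 1 = -(i : ℤ) by ring]
      ring
    rw [e]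
    refine (hv _ _).trans (max_le ?_ ih)
    rw [AbsoluteValue.map_neg]
    exact h _

/-- **SUM** -/
theorem sum : SumStmt := by
  intro K _ v c ε F hv hε hF ⟨A, B, hA, hB, h⟩
  have he := fun j : Fin c => tel hv (fun q => A j (2 * q + 1)) (fun q => hA j _)
  have ho := fun j : Fin c => tel hv (fun q => A j (2 * q + 2)) (fun q => hA j _)
  choose He he0 he1 he2 using he
  choose Ho ho0 ho1 ho2 using ho
  obtain ⟨a, ha⟩ : ∃ a : Fin c → ℤ → K,
      a = fun j k => if k % 2 = 0 then He j (k / 2) else Ho j (k / 2) := ⟨_, rfl⟩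
  have hae : ∀ j q, a j (2 * q) = He j q := by
    intro j q
    rw [ha]
    simp only
    rw [if_pos (by omega)]
    congr 1
    omega
  have hao : ∀ j q, a j (2 * q + 1) = Ho j q := by
    intro j q
    rw [ha]
    simp only
    rw [if_neg (by omega)]
    congr 1
    omega
  have ha1 : ∀ j k, v (a j k) ≤ 1 := by
    intro j k
    rw [ha]
    simp only
    split_ifs
    · exact he2 _ _
    · exact ho2 _ _
  have hstep : ∀ j k, a j (k + 1) - a j (k - 1) = A j k := by
    intro j k
    rcases Int.even_or_odd' k with ⟨q, hq | hq⟩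
    · rw [hq, show 2 * q - 1 = 2 * (q - 1) + 1 by ring, hao, hao]
      have h1 := ho1 j (q - 1)
      rw [show q - 1 + 1 = q by ring, show 2 * (q - 1) + 2 = 2 * q by ring] at h1
      exact h1
    · rw [hq, show 2 * q + 1 + 1 = 2 * (q + 1) by ring, show 2 * q + 1 - 1 = 2 * q by ring, hae,
        hae]
      exact he1 j q
  obtain ⟨G, hG⟩ : ∃ G : ℤ → ℤ → K, G = fun k s => F k s - ∑ j, a j k * B j s := ⟨_, rfl⟩
  have hGs : ∀ k s, v (G (k + 1) s - G (k - 1) s) ≤ ε := by
    intro k s
    have e : G (k + 1) s - G (k - 1) s = (F (k + 1) s - F (k - 1) s) - ∑ j, A j k * B j s := by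
      rw [hG]
      simp only
      have e2 : ∑ j, A j k * B j s = ∑ j, a j (k + 1) * B j s - ∑ j, a j (k - 1) * B j s := by
        rw [← Finset.sum_sub_distrib]
        refine Finset.sum_congr rfl fun j _ => ?_
        rw [← hstep j k]
        ring
      rw [e2]
      ring
    rw [e]
    exact h k s
  have hG0 : ∀ s, G 0 s = F 0 s := by
    intro s
    rw [hG]
    simp only
    have : ∑ j, a j 0 * B j s = 0 := by
      refine Finset.sum_eq_zero fun j _ => ?_
      have h1 := hae j 0
      rw [mul_zero, he0] at h1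
      rw [h1, zero_mul]
    rw [this, sub_zero]
  have hG1 : ∀ s, G 1 s = F 1 s := by
    intro s
    rw [hG]
    simp only
    have : ∑ j, a j 1 * B j s = 0 := by
      refine Finset.sum_eq_zero fun j _ => ?_
      have h1 := hao j 0
      rw [mul_zero, zero_add, ho0] at h1
      rw [h1, zero_mul]
    rw [this, sub_zero]
  have hev : ∀ q s, v (G (2 * q) s - F 0 s) ≤ ε := by
    intro q s
    have h1 := walk hv hε (fun q => G (2 * q) s) (fun q => by
      have h2 := hGs (2 * q + 1) s
      rw [show 2 * q + 1 + 1 = 2 * (q + 1) by ring, show 2 * q + 1 - 1 = 2 * q by ring] at h2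
      exact h2) q
    simp only [mul_zero] at h1
    rw [hG0] at h1
    exact h1
  have hod : ∀ q s, v (G (2 * q + 1) s - F 1 s) ≤ ε := by
    intro q s
    have h1 := walk hv hε (fun q => G (2 * q + 1) s) (fun q => by
      have h2 := hGs (2 * (q + 1)) s
      rw [show 2 * (q + 1) - 1 = 2 * q + 1 by ring] at h2
      exact h2) q
    simp only [mul_zero, zero_add] at h1
    rw [hG1] at h1
    exact h1
  refine THS.H27.short_of_fintype v (ι := Fin c ⊕ Bool) (by simp)
    (Sum.elim a fun b k => if k % 2 = 0 then (if b then 0 else 1) else (if b then 1 else 0))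
    (Sum.elim B fun b s => if b then F 1 s else F 0 s) ?_ ?_ ?_
  · rintro (j | b) k
    · exact ha1 j k
    · simp only [Sum.elim_inr]
      split_ifs <;> simp
  · rintro (j | b) s
    · exact hB j s
    · simp only [Sum.elim_inr]
      split_ifs
      · exact hF _ _
      · exact hF _ _
  · intro k s
    rw [Fintype.sum_sum_type, Fintype.sum_bool]
    simp only [Sum.elim_inl, Sum.elim_inr, if_true, Bool.false_eq_true, if_false]
    rcases Int.even_or_odd' k with ⟨q, hq | hq⟩
    · rw [if_pos (by omega), if_pos (by omega)]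
      have e : F k s - (∑ j, a j k * B j s + (0 * F 1 s + 1 * F 0 s)) = G (2 * q) s - F 0 s := by
        rw [hG, hq]
        ring
      rw [e]
      exact hev q s
    · rw [if_neg (by omega), if_neg (by omega)]
      have e : F k s - (∑ j, a j k * B j s + (1 * F 1 s + 0 * F 0 s)) =
          G (2 * q + 1) s - F 1 s := by
        rw [hG, hq]
        ring
      rw [e]
      exact hod q s

end Pool.Agent.SZG.H40
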